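import Pool.Agent.H30.ChB
import Pool.Agent.Helper292.ForceCH

/-!
# It is consistent with ZFC that a hereditarily separable `C_p(X)` is not sequentially separable

The continuum hypothesis is forced by the countable approximations of `Helper292.ForceCH`, and it
gives a space `X` all of whose finite powers are hereditarily Lindelöf, so that `C_p(X)` is
hereditarily separable, while no countable set of continuous functions is sequentially dense in
`C_p(X)`.  The forcing language is the one of `Pool.Agent.Helper669.Forcing`: a sentence is the set
of the conditions which force it; `CHHolds P` says that `ω₁` many subsets of `ℕ` are all subsets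
of `ℕ`.
-/

set_option autoImplicit false

namespace Pool.Agent.Results.MP_f4fb69_gt.ForcedFailure

open Set Cardinal Filter Topology Pool.Agent.Helper292.ForceCH
open Pool.Agent.H30.Ch

/-- `C_p(X)`: the continuous real functions on `X` with the topology of pointwise convergence -/
abbrev Cp (X : Type) [TopologicalSpace X] : Type := {f : X → ℝ // Continuous f}

/-- every subspace of `Y` is separable -/
def HereditarilySeparable (Y : Type) [TopologicalSpace Y] : Prop :=
  ∀ S : Set Y, ∃ D ⊆ S, D.Countable ∧ S ⊆ closure D

/-- the subspace `S` of `Y` is sequentially separable: it contains a countable set `D` such that each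
of its points is the limit of a sequence of points of `D` -/
def SequentiallySeparable {Y : Type} [TopologicalSpace Y] (S : Set Y) : Prop :=
  ∃ D ⊆ S, D.Countable ∧ ∀ f ∈ S, ∃ u : ℕ → Y, (∀ n, u n ∈ D) ∧ Tendsto u atTop (𝓝 f)

/-- (1) Some forcing notion forces that `ω₁` is preserved and that the continuum hypothesis holds.
(2) The continuum hypothesis implies that there is a Tychonoff space `X` such that all finite powers
of `X` are hereditarily Lindelöf and `C_p(X)` is hereditarily separable, but `C_p(X)` itself is not
sequentially separable. So the statement of the question is not provable in ZFC. -/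
theorem result :
    (∃ (P : Type) (_ : Preorder P), Nonempty P ∧ ∀ p : P,
      p ∈ OmegaOnePreserved P ∧ p ∈ CHHolds P) ∧
    ((ℵ₁ : Cardinal.{0}) = 𝔠 →
      ∃ (X : Type) (_ : TopologicalSpace X), T35Space X ∧
        (∀ n : ℕ, HereditarilyLindelofSpace (Fin n → X)) ∧
        HereditarilySeparable (Cp X) ∧ ¬ SequentiallySeparable (univ : Set (Cp X))) := by
  refine ⟨?_, fun h => ?_⟩
  · obtain ⟨P, i, h1, h2⟩ := exists_forcing
    exact ⟨P, i, h1, fun p => ⟨(h2 p).1, (h2 p).2.2⟩⟩
  · obtain ⟨x, hx⟩ := exists_gen h.symm
    refine ⟨Set.range x, inferInstance, inferInstance, hx.hl, fun S => cp_hs hx.hl S, ?_⟩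
    rintro ⟨D, -, h2, h3⟩
    obtain ⟨g, h4, h5⟩ := hx.not_seq (D := Subtype.val '' D) (h2.image _) (by
      rintro _ ⟨f, -, rfl⟩
      exact f.2)
    obtain ⟨u, h6, h7⟩ := h3 ⟨g, h4⟩ (mem_univ _)
    exact h5 (fun n => (u n).1) (fun n => ⟨u n, h6 n, rfl⟩)
      ((continuous_subtype_val.tendsto _).comp h7)

end Pool.Agent.Results.MP_f4fb69_gt.ForcedFailure
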